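import Pool.Agent.Lib.MP_43d240_ag.Frozen.Defs
import Pool.Agent.Lib.MP_43d240_ag.H74.Place

/-!
# Project PI, frozen side (helper44): GenStatement from helper74's generic forms
-/

set_option autoImplicit false

namespace Pool.Agent.Lib.MP_43d240_ag.H44

open MvPolynomial Pool.Agent.PI Pool.Agent.PI.F1

theorem hom_lit (n : ℕ) [n.AtLeastTwo] :
    (OfNat.ofNat n : MvPolynomial (Fin 4) ℤ).IsHomogeneous 0 := by
  have : (OfNat.ofNat n : MvPolynomial (Fin 4) ℤ) = C (OfNat.ofNat n : ℤ) := by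
    rw [map_ofNat]
  rw [this]
  exact isHomogeneous_C _ _

theorem hX (i : Fin 4) : (X i : MvPolynomial (Fin 4) ℤ).IsHomogeneous 1 := isHomogeneous_X ℤ i

theorem hc : (X 1 - 2 * X 2 : MvPolynomial (Fin 4) ℤ).IsHomogeneous 1 := by
  have h : (2 * X 2 : MvPolynomial (Fin 4) ℤ).IsHomogeneous (0 + 1) := (hom_lit 2).mul (hX 2)
  exact (hX 1).sub h

theorem hmul {p q : MvPolynomial (Fin 4) ℤ} {a b c : ℕ} (hp : p.IsHomogeneous a)
    (hq : q.IsHomogeneous b) (h : a + b = c) : (p * q).IsHomogeneous c := h ▸ hp.mul hq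

theorem hpow {p : MvPolynomial (Fin 4) ℤ} {a c : ℕ} (hp : p.IsHomogeneous a) (n : ℕ)
    (h : a * n = c) : (p ^ n).IsHomogeneous c := h ▸ hp.pow n

theorem sZ_hom (j : Fin 6) : (sZ j).IsHomogeneous 6 := by
  fin_cases j
  · change (X 3 * X 0 ^ 5 : MvPolynomial (Fin 4) ℤ).IsHomogeneous 6
    exact hmul (hX 3) (hpow (hX 0) 5 rfl) rfl
  · change (4 * X 2 ^ 5 * (X 1 - 2 * X 2) - 4 * X 2 ^ 3 * (X 1 - 2 * X 2) ^ 3 + X 2 ^ 4 * X 0 ^ 2
      + 30 * X 2 ^ 2 * (X 1 - 2 * X 2) ^ 2 * X 0 ^ 2 - 27 * (X 1 - 2 * X 2) ^ 4 * X 0 ^ 2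
      + 24 * X 2 * (X 1 - 2 * X 2) * X 0 ^ 4 + 4 * X 0 ^ 6 :
        MvPolynomial (Fin 4) ℤ).IsHomogeneous 6
    have t1 : (4 * X 2 ^ 5 * (X 1 - 2 * X 2) : MvPolynomial (Fin 4) ℤ).IsHomogeneous 6 :=
      hmul (hmul (hom_lit 4) (hpow (hX 2) 5 rfl) rfl) hc rfl
    have t2 : (4 * X 2 ^ 3 * (X 1 - 2 * X 2) ^ 3 : MvPolynomial (Fin 4) ℤ).IsHomogeneous 6 :=
      hmul (hmul (hom_lit 4) (hpow (hX 2) 3 rfl) rfl) (hpow hc 3 rfl) rfl
    have t3 : (X 2 ^ 4 * X 0 ^ 2 : MvPolynomial (Fin 4) ℤ).IsHomogeneous 6 :=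
      hmul (hpow (hX 2) 4 rfl) (hpow (hX 0) 2 rfl) rfl
    have t4 : (30 * X 2 ^ 2 * (X 1 - 2 * X 2) ^ 2 * X 0 ^ 2 :
        MvPolynomial (Fin 4) ℤ).IsHomogeneous 6 :=
      hmul (hmul (hmul (hom_lit 30) (hpow (hX 2) 2 rfl) rfl) (hpow hc 2 rfl) rfl)
        (hpow (hX 0) 2 rfl) rfl
    have t5 : (27 * (X 1 - 2 * X 2) ^ 4 * X 0 ^ 2 : MvPolynomial (Fin 4) ℤ).IsHomogeneous 6 :=
      hmul (hmul (hom_lit 27) (hpow hc 4 rfl) rfl) (hpow (hX 0) 2 rfl) rfl
    have t6 : (24 * X 2 * (X 1 - 2 * X 2) * X 0 ^ 4 : MvPolynomial (Fin 4) ℤ).IsHomogeneous 6 :=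
      hmul (hmul (hmul (hom_lit 24) (hX 2) rfl) hc rfl) (hpow (hX 0) 4 rfl) rfl
    have t7 : (4 * X 0 ^ 6 : MvPolynomial (Fin 4) ℤ).IsHomogeneous 6 :=
      hmul (hom_lit 4) (hpow (hX 0) 6 rfl) rfl
    exact (((((t1.sub t2).add t3).add t4).sub t5).add t6).add t7
  · change ((X 1 + X 3) * X 0 ^ 5 : MvPolynomial (Fin 4) ℤ).IsHomogeneous 6
    exact hmul ((hX 1).add (hX 3)) (hpow (hX 0) 5 rfl) rfl
  · change ((X 3 - X 0) * X 0 ^ 5 : MvPolynomial (Fin 4) ℤ).IsHomogeneous 6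
    exact hmul ((hX 3).sub (hX 0)) (hpow (hX 0) 5 rfl) rfl
  · change (X 2 * X 0 ^ 5 : MvPolynomial (Fin 4) ℤ).IsHomogeneous 6
    exact hmul (hX 2) (hpow (hX 0) 5 rfl) rfl
  · change ((X 3 - 2 * X 0) * X 0 ^ 5 : MvPolynomial (Fin 4) ℤ).IsHomogeneous 6
    have h : (2 * X 0 : MvPolynomial (Fin 4) ℤ).IsHomogeneous 1 := hmul (hom_lit 2) (hX 0) rfl
    exact hmul ((hX 3).sub h) (hpow (hX 0) 5 rfl) rfl

theorem genStatement_of (κ : Type) [Field κ] [CharZero κ] : GenStatement := by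
  classical
  obtain ⟨V, φ, m, hφ, hm, hres⟩ := exists_place κ (Idx × Fin 4)
  let k := GK κ (Idx × Fin 4)
  haveI hac : IsAlgClosed (IsLocalRing.ResidueField V) := isAlgClosed_residueField V
  haveI hc0 : CharZero (IsLocalRing.ResidueField V) :=
    charZero_of_injective_ringHom (f := (IsLocalRing.residue V).comp φ) (RingHom.injective _)
  let s : Idx → MvPolynomial (Fin 4) κ := fun i => map (Int.castRingHom κ) (sZ i.1)
  let t : Idx → Fin 4 → k := fun i l => tt κ (Idx × Fin 4) (i, l)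
  let F : Idx → MvPolynomial (Fin 4) V := fun i => map φ (s i) + ∑ l, C (m (i, l)) * X l ^ 6
  have hFk : (fun i => map V.subtype (F i)) = gform (fun _ => 6) s t := by
    funext i
    change map V.subtype (map φ (s i) + ∑ l, C (m (i, l)) * X l ^ 6) = _
    rw [gform, map_add, map_sum]
    congr 1
    · rw [MvPolynomial.map_map]
      have h1 : V.subtype.comp φ = algebraMap κ k := RingHom.ext hφ
      rw [h1]
    · refine Finset.sum_congr rfl fun l _ => ?_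
      rw [map_mul, map_pow, map_X, map_C]
      congr 2
      exact hm (i, l)
  refine ⟨k, inferInstance, inferInstance, inferInstance, V, hac, hc0, F, ?_, ?_, ?_⟩
  · intro i
    refine IsHomogeneous.add (((sZ_hom i.1).map _).map _) (IsHomogeneous.sum _ _ _ fun l _ => ?_)
    have h1 := (isHomogeneous_C (Fin 4) (m (i, l))).mul ((isHomogeneous_X V l).pow 6)
    simpa using h1
  · rw [hFk]
    intro P hP
    refine gform_gp (fun _ => 6) s t ?_ P hP
    intro g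
    obtain ⟨D, hD⟩ := exists_derivation κ (Idx × Fin 4) (fun x => g x.1 x.2)
    exact ⟨D, fun i l => hD (i, l)⟩
  · intro i
    change map (IsLocalRing.residue V) (map φ (s i) + ∑ l, C (m (i, l)) * X l ^ 6) = _
    rw [map_add, map_sum]
    have h0 : ∑ l, map (IsLocalRing.residue V) (C (m (i, l)) * X l ^ 6) = 0 := by
      refine Finset.sum_eq_zero fun l _ => ?_
      rw [map_mul, map_C, hres, C_0, zero_mul]
    rw [h0, add_zero, MvPolynomial.map_map]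
    change map _ (map (Int.castRingHom κ) (sZ i.1)) = _
    rw [MvPolynomial.map_map]
    have h1 : ((IsLocalRing.residue V).comp φ).comp (Int.castRingHom κ) =
      Int.castRingHom (IsLocalRing.ResidueField V) := RingHom.ext_int _ _
    rw [h1]

/-- GEN. -/
theorem genStatement : GenStatement := genStatement_of ℚ

end Pool.Agent.Lib.MP_43d240_ag.H44
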