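import Pool.Agent.Lib.MP_43d240_ag.H44.Spec
import Pool.Agent.Lib.MP_43d240_ag.H44.Gen
import Pool.Agent.Lib.MP_43d240_ag.H30.Nzd

/-!
# Project PI, frozen side (helper44): the assembly
-/

set_option autoImplicit false

namespace Pool.Agent.Lib.MP_43d240_ag.H44

open Pool.Agent.PI

theorem nzdTransfer : NzdTransfer := by
  intro K κ' _ _ O π hP α β H
  exact Pool.Agent.PI.H30.nozd_of_place hP _ _ α β (fun _ => rfl) (fun _ => rfl) H

/-- S00162 from the field theorem, the geometry of the cover and the end chapter. -/
theorem frozen_of_geo_field_end (hGeo : GeoStatement) (hField : FieldStatement)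
    (hEnd : EndStatement) : FrozenStatement :=
  frozen_of nzdTransfer genStatement hGeo hField hEnd

end Pool.Agent.Lib.MP_43d240_ag.H44
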