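import Pool.Agent.Lib.MP_43d240_ag.H44.Assembly
import Pool.Agent.Lib.MP_43d240_ag.H15.End
import Pool.Agent.Lib.MP_43d240_ag.H21.ShellThm
import Pool.Agent.Lib.MP_43d240_ag.FZ.All

/-!
# Project PI, frozen side (helper44): S00162 from the field theorem
-/

set_option autoImplicit false

namespace Pool.Agent.Lib.MP_43d240_ag.H44

open Pool.Agent.PI

/-- S00162 from the field theorem and the geometry of the cover. -/
theorem frozen_of_geo_field (hGeo : GeoStatement) (hField : FieldStatement) : FrozenStatement :=
  frozen_of_geo_field_end hGeo hField endStatement

/-- the geometry of the cover (shell: helper32, helper21; model: helper72 and the board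
`pif_modules`) -/
theorem geoStatement : GeoStatement := H21.geo Pool.Agent.PI.FZ.modelStatement

/-- S00162 from the field theorem. -/
theorem frozen_of_field (hField : FieldStatement) : FrozenStatement :=
  frozen_of_geo_field geoStatement hField

end Pool.Agent.Lib.MP_43d240_ag.H44
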