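import Pool.Agent.Lib.MP_43d240_ag.H44.Place

/-!
# Project PI, frozen side (helper44): the Gauss extension of a valuation ring to a rational
function field
-/

set_option autoImplicit false

namespace Pool.Agent.Lib.MP_43d240_ag.H44

open MvPolynomial

variable {k K κ' : Type*} [Field k] [Field K] [Field κ']

/-- the residue map on the underlying subring -/
def resOf (V : ValuationSubring k) : V.toSubring →+* IsLocalRing.ResidueField V :=
  IsLocalRing.residue V

/-- a valuation subring is a place -/
theorem isPlace_valuationSubring (V : ValuationSubring k) :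
    IsPlace (⊤ : Subfield k) V.toSubring (resOf V) where
  le := fun _ _ => trivial
  val := fun a _ => V.mem_or_inv_mem a
  unit := by
    rintro ⟨a, haV⟩ ha
    let b : V := ⟨a, haV⟩
    have h1 : IsLocalRing.residue V b ≠ 0 := ha
    change a⁻¹ ∈ V
    have h2 : IsUnit b := by
      rw [← IsLocalRing.notMem_maximalIdeal]
      intro h
      exact h1 ((IsLocalRing.residue_eq_zero_iff _).2 h)
    obtain ⟨u, hu⟩ := h2
    have h3 : ((u⁻¹ : Vˣ) : V) * b = 1 := by
      rw [← hu]; exact Units.inv_mul u
    have h4 : (((u⁻¹ : Vˣ) : V) : k) * a = 1 := by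
      have := congrArg (fun z : V => (z : k)) h3
      exact this
    rw [← eq_inv_of_mul_eq_one_left h4]
    exact ((u⁻¹ : Vˣ) : V).2

theorem exists_lift {σ : Type*} (V : ValuationSubring k) (f : MvPolynomial σ k)
    (hf : ∀ m, coeff m f ∈ V) : ∃ F : MvPolynomial σ V, map V.subtype F = f := by
  have : f ∈ Set.range (map (σ := σ) V.subtype) := by
    rw [mem_range_map_iff_coeffs_subset]
    intro c hc
    rw [Finset.mem_coe, mem_coeffs_iff] at hc
    obtain ⟨m, -, rfl⟩ := hc
    exact ⟨⟨_, hf m⟩, rfl⟩
  exact this

/-- GAUSS EXTENSION. -/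
theorem exists_place_gauss {σ : Type*} (V : ValuationSubring k) (ψ : MvPolynomial σ k →+* K)
    (hψ : Function.Injective ψ) (θ₀ : MvPolynomial σ (IsLocalRing.ResidueField V) →+* κ')
    (hθ₀ : Function.Injective θ₀) :
    ∃ (O : Subring K) (π : O →+* κ'), IsPlace (Subfield.closure (Set.range ψ)) O π ∧
      ∀ F : MvPolynomial σ V, ∃ h : ψ (map V.subtype F) ∈ O,
        π ⟨_, h⟩ = θ₀ (map (IsLocalRing.residue V) F) := by
  classical
  set Φ : MvPolynomial σ V →+* K := ψ.comp (map V.subtype) with hΦ
  have hΦi : Function.Injective Φ := by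
    intro a b h
    exact map_injective _ Subtype.val_injective (hψ h)
  let e : MvPolynomial σ V ≃+* Φ.range := RingEquiv.ofBijective Φ.rangeRestrict
    ⟨fun a b h => hΦi (congrArg Subtype.val h), Φ.rangeRestrict_surjective⟩
  let θ : Φ.range →+* κ' := (θ₀.comp (map (IsLocalRing.residue V))).comp e.symm.toRingHom
  have hθ : ∀ F : MvPolynomial σ V, θ (e F) = θ₀ (map (IsLocalRing.residue V) F) := by
    intro F
    change θ₀ (map (IsLocalRing.residue V) (e.symm (e F))) = _
    rw [RingEquiv.symm_apply_apply]
  have hev : ∀ F : MvPolynomial σ V, ((e F : Φ.range) : K) = ψ (map V.subtype F) := fun F => rfl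
  obtain ⟨O, π, hle, hP, hext⟩ := exists_place_of (Subfield.closure (Set.range ψ)) Φ.range θ
    (by
      rintro a ⟨F, rfl⟩
      exact Subfield.subset_closure ⟨_, rfl⟩)
    (by
      intro a ha
      rw [Subfield.mem_closure_iff] at ha
      obtain ⟨y, hy, z, hz, rfl⟩ := ha
      have hcl : Subring.closure (Set.range ψ) = ψ.range := by
        rw [← RingHom.coe_range, Subring.closure_eq]
      rw [hcl] at hy hz
      obtain ⟨f, rfl⟩ := hy
      obtain ⟨g, rfl⟩ := hz
      by_cases hg : g = 0
      · refine ⟨0, 1, ?_, Or.inr (by rw [map_one]; exact one_ne_zero)⟩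
        rw [hg]; simp
      -- scale the coefficients
      obtain ⟨c, -, hc0, hcO, hc1⟩ := (isPlace_valuationSubring V).scale
        ((f.support ∪ g.support) ×ˢ (Finset.univ : Finset Bool))
        (fun i => if i.2 then coeff i.1 f else coeff i.1 g)
        (fun _ _ => trivial)
        (by
          obtain ⟨m, hm⟩ := (MvPolynomial.ne_zero_iff).1 hg
          refine ⟨(m, false), ?_, by simpa using hm⟩
          simp [hm])
      have hcoef : ∀ (h : MvPolynomial σ k) (b : Bool), (h = if b then f else g) →
          ∀ m, coeff m (C c * h) ∈ V := by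
        intro h b hb m
        rw [coeff_C_mul]
        by_cases hm : coeff m h = 0
        · rw [hm, mul_zero]; exact zero_mem _
        · have := hcO (m, b) (by
            rw [Finset.mem_product]
            refine ⟨?_, Finset.mem_univ _⟩
            rw [Finset.mem_union, mem_support_iff, mem_support_iff]
            cases b
            · right; simpa [hb] using hm
            · left; simpa [hb] using hm)
          cases b
          · rw [hb]; simpa using this
          · rw [hb]; simpa using this
      obtain ⟨F, hF⟩ := exists_lift V (C c * f) (hcoef f true rfl)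
      obtain ⟨G, hG⟩ := exists_lift V (C c * g) (hcoef g false rfl)
      have hψc : ψ (C c) ≠ 0 := by
        intro h0
        apply hc0
        have : (C c : MvPolynomial σ k) = 0 := hψ (by rw [h0, map_zero])
        simpa using this
      have hψg : ψ g ≠ 0 := by
        intro h0; exact hg (hψ (by rw [h0, map_zero]))
      refine ⟨e F, e G, ?_, ?_⟩
      · rw [hev, hev, hF, hG, map_mul, map_mul]
        field_simp
      · rw [hθ, hθ]
        obtain ⟨⟨m, b⟩, -, hm⟩ := hc1
        have key : ∀ (H : MvPolynomial σ V) (h : MvPolynomial σ k), map V.subtype H = C c * h →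
            c * coeff m h = 1 → θ₀ (map (IsLocalRing.residue V) H) ≠ 0 := by
          intro H h hH h1 h0
          have h2 : map (IsLocalRing.residue V) H = 0 := hθ₀ (by rw [h0, map_zero])
          have h3 : coeff m (map (IsLocalRing.residue V) H) = 0 := by rw [h2, coeff_zero]
          rw [coeff_map] at h3
          have h4 : V.subtype (coeff m H) = 1 := by
            rw [← coeff_map, hH, coeff_C_mul, h1]
          have h5 : coeff m H = 1 := Subtype.ext h4
          rw [h5, map_one] at h3
          exact one_ne_zero h3
        cases b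
        · right; exact key G g hG (by simpa using hm)
        · left; exact key F f hF (by simpa using hm))
  refine ⟨O, π, hP, ?_⟩
  intro F
  refine ⟨hle (e F).2, ?_⟩
  have := hext (e F)
  rw [hθ] at this
  exact this

end Pool.Agent.Lib.MP_43d240_ag.H44
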