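import Mathlib

/-!
# Project PI, frozen side (helper44): places of fields

`IsPlace L O π`: `O` is a valuation ring of the subfield `L` of `K`, and `π : O →+* κ` is a ring
homomorphism whose kernel is the maximal ideal.
-/

set_option autoImplicit false

namespace Pool.Agent.Lib.MP_43d240_ag.H44

variable {K κ : Type*} [Field K] [Field κ]

/-- A valuation ring `O` of the subfield `L` of `K` with a residue map to `κ`. -/
structure IsPlace (L : Subfield K) (O : Subring K) (π : O →+* κ) : Prop where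
  le : ∀ a ∈ O, a ∈ L
  val : ∀ a ∈ L, a ∈ O ∨ a⁻¹ ∈ O
  unit : ∀ a : O, π a ≠ 0 → (a : K)⁻¹ ∈ O

section Loc

variable (C : Subring K) (θ : C →+* κ)

/-- membership in the localization of `C` at the kernel of `θ` -/
def locMem (a : K) : Prop := ∃ p q : C, θ q ≠ 0 ∧ a * q = p

theorem q_ne_zero {θ : C →+* κ} {q : C} (h : θ q ≠ 0) : (q : K) ≠ 0 := by
  intro h0
  apply h
  have : q = 0 := Subtype.ext h0
  rw [this, map_zero]

/-- the localization as a subring -/
def locRing : Subring K where
  carrier := {a | locMem C θ a}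
  mul_mem' := by
    rintro a b ⟨p, q, hq, h⟩ ⟨p', q', hq', h'⟩
    refine ⟨p * p', q * q', by rw [map_mul]; exact mul_ne_zero hq hq', ?_⟩
    push_cast
    rw [← h, ← h']; ring
  one_mem' := ⟨1, 1, by rw [map_one]; exact one_ne_zero, by simp⟩
  add_mem' := by
    rintro a b ⟨p, q, hq, h⟩ ⟨p', q', hq', h'⟩
    refine ⟨p * q' + p' * q, q * q', by rw [map_mul]; exact mul_ne_zero hq hq', ?_⟩
    push_cast
    rw [← h, ← h']; ring
  zero_mem' := ⟨0, 1, by rw [map_one]; exact one_ne_zero, by simp⟩
  neg_mem' := by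
    rintro a ⟨p, q, hq, h⟩
    refine ⟨-p, q, hq, ?_⟩
    push_cast
    rw [← h]; ring

theorem mem_locRing {a : K} : a ∈ locRing C θ ↔ locMem C θ a := Iff.rfl

theorem frac_unique {θ : C →+* κ} {a : K} {p q p' q' : C} (hq : θ q ≠ 0) (hq' : θ q' ≠ 0)
    (h : a * q = p) (h' : a * q' = p') : θ p / θ q = θ p' / θ q' := by
  have h1 : p * q' = p' * q := by
    apply Subtype.ext
    push_cast
    rw [← h, ← h']; ring
  rw [div_eq_div_iff hq hq', ← map_mul, ← map_mul, h1]

/-- the value of the extended homomorphism -/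
noncomputable def locVal (a : locRing C θ) : κ := θ a.2.choose / θ a.2.choose_spec.choose

theorem locVal_eq (a : locRing C θ) {p q : C} (hq : θ q ≠ 0) (h : (a : K) * q = p) :
    locVal C θ a = θ p / θ q :=
  frac_unique C a.2.choose_spec.choose_spec.1 hq a.2.choose_spec.choose_spec.2 h

/-- the extended homomorphism -/
noncomputable def locHom : locRing C θ →+* κ where
  toFun := locVal C θ
  map_one' := by
    rw [locVal_eq C θ 1 (p := 1) (q := 1) (by rw [map_one]; exact one_ne_zero) (by simp)]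
    simp
  map_zero' := by
    rw [locVal_eq C θ 0 (p := 0) (q := 1) (by rw [map_one]; exact one_ne_zero) (by simp)]
    simp
  map_mul' a b := by
    obtain ⟨p, q, hq, h⟩ := a.2
    obtain ⟨p', q', hq', h'⟩ := b.2
    rw [locVal_eq C θ a hq h, locVal_eq C θ b hq' h',
      locVal_eq C θ (a * b) (p := p * p') (q := q * q')
        (by rw [map_mul]; exact mul_ne_zero hq hq') (by push_cast; rw [← h, ← h']; ring)]
    rw [map_mul, map_mul]
    field_simp
  map_add' a b := by
    obtain ⟨p, q, hq, h⟩ := a.2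
    obtain ⟨p', q', hq', h'⟩ := b.2
    rw [locVal_eq C θ a hq h, locVal_eq C θ b hq' h',
      locVal_eq C θ (a + b) (p := p * q' + p' * q) (q := q * q')
        (by rw [map_mul]; exact mul_ne_zero hq hq') (by push_cast; rw [← h, ← h']; ring)]
    rw [map_add, map_mul, map_mul, map_mul]
    field_simp

theorem le_locRing : C ≤ locRing C θ := fun a ha =>
  ⟨⟨a, ha⟩, 1, by rw [map_one]; exact one_ne_zero, by simp⟩

theorem locHom_apply (a : C) : locHom C θ ⟨a, le_locRing C θ a.2⟩ = θ a := by
  change locVal C θ _ = _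
  rw [locVal_eq C θ _ (p := a) (q := 1) (by rw [map_one]; exact one_ne_zero) (by simp)]
  simp

theorem isPlace_loc (L : Subfield K) (hC : ∀ a ∈ C, a ∈ L)
    (H : ∀ a ∈ L, ∃ p q : C, a * q = p ∧ (θ p ≠ 0 ∨ θ q ≠ 0)) :
    IsPlace L (locRing C θ) (locHom C θ) where
  le := by
    rintro a ⟨p, q, hq, h⟩
    have hq0 : (q : K) ≠ 0 := q_ne_zero C hq
    have : a = p / q := by rw [← h]; field_simp
    rw [this]
    exact div_mem (hC _ p.2) (hC _ q.2)
  val := by
    intro a ha
    obtain ⟨p, q, h, h1 | h1⟩ := H a ha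
    · right
      have hp0 : (p : K) ≠ 0 := q_ne_zero C h1
      have ha0 : a ≠ 0 := by rintro rfl; rw [zero_mul] at h; exact hp0 h.symm
      exact ⟨q, p, h1, by rw [← h]; field_simp⟩
    · left
      exact ⟨p, q, h1, h⟩
  unit := by
    rintro a ha
    obtain ⟨p, q, hq, h⟩ := a.2
    have h2 : locHom C θ a = θ p / θ q := locVal_eq C θ a hq h
    rw [h2] at ha
    have hp : θ p ≠ 0 := by
      intro h0; rw [h0, zero_div] at ha; exact ha rfl
    have hp0 : (p : K) ≠ 0 := q_ne_zero C hp
    have ha0 : (a : K) ≠ 0 := by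
      intro h0; rw [h0, zero_mul] at h; exact hp0 h.symm
    exact ⟨q, p, hp, by rw [← h]; field_simp⟩

end Loc

/-- the general extension lemma -/
theorem exists_place_of (L : Subfield K) (C : Subring K) (θ : C →+* κ) (hC : ∀ a ∈ C, a ∈ L)
    (H : ∀ a ∈ L, ∃ p q : C, a * q = p ∧ (θ p ≠ 0 ∨ θ q ≠ 0)) :
    ∃ (O : Subring K) (π : O →+* κ) (h : C ≤ O), IsPlace L O π ∧
      ∀ a : C, π ⟨a, h a.2⟩ = θ a :=
  ⟨locRing C θ, locHom C θ, le_locRing C θ, isPlace_loc C θ L hC H, locHom_apply C θ⟩

namespace IsPlace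

variable {L : Subfield K} {O : Subring K} {π : O →+* κ}

theorem mem_of_sq (h : IsPlace L O π) {u : K} (hu : u ∈ L) (h2 : u ^ 2 ∈ O) : u ∈ O := by
  rcases h.val u hu with h1 | h1
  · exact h1
  · by_cases h0 : u = 0
    · rw [h0]; exact zero_mem _
    have : u = u ^ 2 * u⁻¹ := by field_simp
    rw [this]; exact mul_mem h2 h1

theorem ne_zero_of_map (a : O) (ha : π a ≠ 0) : (a : K) ≠ 0 := by
  intro h0
  apply ha
  have : a = 0 := Subtype.ext h0
  rw [this, map_zero]

/-- scaling of a finite family -/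
theorem scale (h : IsPlace L O π) {ι : Type*} (s : Finset ι) (f : ι → K)
    (hf : ∀ i ∈ s, f i ∈ L) (hne : ∃ i ∈ s, f i ≠ 0) :
    ∃ c ∈ L, c ≠ 0 ∧ (∀ i ∈ s, c * f i ∈ O) ∧ ∃ i ∈ s, c * f i = 1 := by
  classical
  -- choose `j` with `f j` of maximal value
  have key : ∀ s : Finset ι, (∀ i ∈ s, f i ∈ L) → (∃ i ∈ s, f i ≠ 0) →
      ∃ j ∈ s, f j ≠ 0 ∧ ∀ i ∈ s, (f j)⁻¹ * f i ∈ O := by
    intro s
    induction s using Finset.induction_on with
    | empty => rintro - ⟨i, hi, -⟩; simp at hi
    | insert a s has ih =>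
      intro hf hne
      by_cases hs : ∃ i ∈ s, f i ≠ 0
      · obtain ⟨j, hj, hj0, hall⟩ := ih (fun i hi => hf i (Finset.mem_insert_of_mem hi)) hs
        rcases h.val ((f j)⁻¹ * f a) (mul_mem (inv_mem (hf j (Finset.mem_insert_of_mem hj)))
          (hf a (Finset.mem_insert_self _ _))) with h1 | h1
        · refine ⟨j, Finset.mem_insert_of_mem hj, hj0, ?_⟩
          intro i hi
          rcases Finset.mem_insert.1 hi with rfl | hi
          · exact h1
          · exact hall i hi
        · by_cases ha0 : f a = 0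
          · refine ⟨j, Finset.mem_insert_of_mem hj, hj0, ?_⟩
            intro i hi
            rcases Finset.mem_insert.1 hi with rfl | hi
            · rw [ha0, mul_zero]; exact zero_mem _
            · exact hall i hi
          refine ⟨a, Finset.mem_insert_self _ _, ha0, ?_⟩
          intro i hi
          rcases Finset.mem_insert.1 hi with rfl | hi
          · rw [inv_mul_cancel₀ ha0]; exact one_mem _
          · have : (f a)⁻¹ * f i = ((f j)⁻¹ * f a)⁻¹ * ((f j)⁻¹ * f i) := by
              field_simp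
            rw [this]
            exact mul_mem h1 (hall i hi)
      · push Not at hs
        obtain ⟨i, hi, hi0⟩ := hne
        have hia : i = a := by
          rcases Finset.mem_insert.1 hi with h2 | h2
          · exact h2
          · exact absurd (hs i h2) hi0
        subst hia
        refine ⟨i, Finset.mem_insert_self _ _, hi0, ?_⟩
        intro i' hi'
        rcases Finset.mem_insert.1 hi' with rfl | hi'
        · rw [inv_mul_cancel₀ hi0]; exact one_mem _
        · rw [hs i' hi', mul_zero]; exact zero_mem _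
  obtain ⟨j, hj, hj0, hall⟩ := key s hf hne
  exact ⟨(f j)⁻¹, inv_mem (hf j hj), inv_ne_zero hj0, hall, j, hj, inv_mul_cancel₀ hj0⟩

end IsPlace

end Pool.Agent.Lib.MP_43d240_ag.H44
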