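import Pool.Agent.Lib.MP_43d240_ag.H44.Place

/-!
# Project PI, frozen side (helper44): extension of a place through square roots of units whose
residue is a square; the residue field does not change
-/

set_option autoImplicit false

namespace Pool.Agent.Lib.MP_43d240_ag.H44

variable {K κ : Type*} [Field K] [Field κ]

section Quad

variable (L : Subfield K) {u : K}

/-- elements `x + y u` -/
def quadField (u : K) (hu2 : u ^ 2 ∈ L) : Subfield K where
  carrier := {a | ∃ x ∈ L, ∃ y ∈ L, a = x + y * u}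
  mul_mem' := by
    rintro a b ⟨x, hx, y, hy, rfl⟩ ⟨x', hx', y', hy', rfl⟩
    refine ⟨x * x' + y * y' * u ^ 2, add_mem (mul_mem hx hx') (mul_mem (mul_mem hy hy') hu2),
      x * y' + y * x', add_mem (mul_mem hx hy') (mul_mem hy hx'), by ring⟩
  one_mem' := ⟨1, one_mem _, 0, zero_mem _, by ring⟩
  add_mem' := by
    rintro a b ⟨x, hx, y, hy, rfl⟩ ⟨x', hx', y', hy', rfl⟩
    exact ⟨x + x', add_mem hx hx', y + y', add_mem hy hy', by ring⟩
  zero_mem' := ⟨0, zero_mem _, 0, zero_mem _, by ring⟩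
  neg_mem' := by
    rintro a ⟨x, hx, y, hy, rfl⟩
    exact ⟨-x, neg_mem hx, -y, neg_mem hy, by ring⟩
  inv_mem' := by
    rintro a ⟨x, hx, y, hy, rfl⟩
    by_cases hn : x ^ 2 - y ^ 2 * u ^ 2 = 0
    · have h1 : (x - y * u) * (x + y * u) = 0 := by rw [← hn]; ring
      rcases mul_eq_zero.1 h1 with h2 | h2
      · -- `x = y u`
        have hx' : x = y * u := sub_eq_zero.1 h2
        have h3 : x + y * u = 2 * x := by rw [← hx']; ring
        have h4 : x + y * u ∈ L := by
          rw [h3]
          exact mul_mem (ofNat_mem _ _) hx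
        exact ⟨(x + y * u)⁻¹, inv_mem h4, 0, zero_mem _, by ring⟩
      · rw [h2, inv_zero]
        exact ⟨0, zero_mem _, 0, zero_mem _, by ring⟩
    · have hne : x + y * u ≠ 0 := by
        intro h0
        apply hn
        have : x ^ 2 - y ^ 2 * u ^ 2 = (x - y * u) * (x + y * u) := by ring
        rw [this, h0, mul_zero]
      have hN : x ^ 2 - y ^ 2 * u ^ 2 ∈ L :=
        sub_mem (pow_mem hx 2) (mul_mem (pow_mem hy 2) hu2)
      refine ⟨x * (x ^ 2 - y ^ 2 * u ^ 2)⁻¹, mul_mem hx (inv_mem hN),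
        -y * (x ^ 2 - y ^ 2 * u ^ 2)⁻¹, mul_mem (neg_mem hy) (inv_mem hN), ?_⟩
      field_simp
      ring

theorem mem_quadField {u : K} {hu2 : u ^ 2 ∈ L} {a : K} :
    a ∈ quadField L u hu2 ↔ ∃ x ∈ L, ∃ y ∈ L, a = x + y * u := Iff.rfl

theorem le_quadField {u : K} (hu2 : u ^ 2 ∈ L) : L ≤ quadField L u hu2 :=
  fun a ha => ⟨a, ha, 0, zero_mem _, by ring⟩

theorem self_mem_quadField {u : K} (hu2 : u ^ 2 ∈ L) : u ∈ quadField L u hu2 :=
  ⟨0, zero_mem _, 1, one_mem _, by ring⟩

end Quad

section Step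

variable {L : Subfield K} {O : Subring K} {π : O →+* κ}

/-- the order `O + O u` -/
def quadOrder (O : Subring K) (u : K) (hu2 : u ^ 2 ∈ O) : Subring K where
  carrier := {a | ∃ x ∈ O, ∃ y ∈ O, a = x + y * u}
  mul_mem' := by
    rintro a b ⟨x, hx, y, hy, rfl⟩ ⟨x', hx', y', hy', rfl⟩
    refine ⟨x * x' + y * y' * u ^ 2, add_mem (mul_mem hx hx') (mul_mem (mul_mem hy hy') hu2),
      x * y' + y * x', add_mem (mul_mem hx hy') (mul_mem hy hx'), by ring⟩
  one_mem' := ⟨1, one_mem _, 0, zero_mem _, by ring⟩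
  add_mem' := by
    rintro a b ⟨x, hx, y, hy, rfl⟩ ⟨x', hx', y', hy', rfl⟩
    exact ⟨x + x', add_mem hx hx', y + y', add_mem hy hy', by ring⟩
  zero_mem' := ⟨0, zero_mem _, 0, zero_mem _, by ring⟩
  neg_mem' := by
    rintro a ⟨x, hx, y, hy, rfl⟩
    exact ⟨-x, neg_mem hx, -y, neg_mem hy, by ring⟩

/-- uniqueness of the coordinates when `u` is not in `L` -/
theorem coord_unique {u : K} (hu : u ∉ L) {x y x' y' : K} (hx : x ∈ L) (hy : y ∈ L) (hx' : x' ∈ L)
    (hy' : y' ∈ L) (h : x + y * u = x' + y' * u) : x = x' ∧ y = y' := by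
  by_cases hyy : y = y'
  · subst hyy
    exact ⟨by linear_combination h, rfl⟩
  · exfalso
    apply hu
    have h1 : y - y' ≠ 0 := sub_ne_zero.2 hyy
    have h2 : u = (x' - x) * (y - y')⁻¹ := by
      field_simp
      linear_combination h
    rw [h2]
    exact mul_mem (sub_mem hx' hx) (inv_mem (sub_mem hy hy'))

/-- ONE QUADRATIC STEP. -/
theorem exists_place_quad (hP : IsPlace L O π) (h2 : (2 : κ) ≠ 0) {u : K} (hu2 : u ^ 2 ∈ O)
    {γ : κ} (hγ : γ ≠ 0) (hg : π ⟨u ^ 2, hu2⟩ = γ ^ 2) :
    ∃ (O' : Subring K) (π' : O' →+* κ) (h : O ≤ O'),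
      IsPlace (quadField L u (hP.le _ hu2)) O' π' ∧ (∀ a : O, π' ⟨a, h a.2⟩ = π a) := by
  classical
  by_cases hu : u ∈ L
  · -- nothing to do
    refine ⟨O, π, le_rfl, ?_, fun a => rfl⟩
    have hL : ∀ a, a ∈ quadField L u (hP.le _ hu2) ↔ a ∈ L := by
      intro a
      constructor
      · rintro ⟨x, hx, y, hy, rfl⟩
        exact add_mem hx (mul_mem hy hu)
      · intro ha
        exact le_quadField L _ ha
    exact ⟨fun a ha => (hL a).2 (hP.le a ha), fun a ha => hP.val a ((hL a).1 ha), hP.unit⟩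
  · set C := quadOrder O u hu2 with hC
    have hcu : ∀ {x y x' y' : K}, x ∈ O → y ∈ O → x' ∈ O → y' ∈ O → x + y * u = x' + y' * u →
        x = x' ∧ y = y' := fun hx hy hx' hy' h =>
      coord_unique hu (hP.le _ hx) (hP.le _ hy) (hP.le _ hx') (hP.le _ hy') h
    -- the homomorphism
    have hex : ∀ a : C, ∃ x : O, ∃ y : O, (a : K) = x + y * u := by
      rintro ⟨a, x, hx, y, hy, rfl⟩
      exact ⟨⟨x, hx⟩, ⟨y, hy⟩, rfl⟩
    choose X Y hXY using hex
    have hval : ∀ (a : C) (x y : O), (a : K) = x + y * u → X a = x ∧ Y a = y := by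
      intro a x y h
      have h3 := hcu (X a).2 (Y a).2 x.2 y.2 (by rw [← hXY a, h])
      exact ⟨Subtype.ext h3.1, Subtype.ext h3.2⟩
    let g : O := ⟨u ^ 2, hu2⟩
    let θ : C →+* κ :=
      { toFun := fun a => π (X a) + π (Y a) * γ
        map_one' := by
          obtain ⟨h3, h4⟩ := hval 1 1 0 (by simp)
          simp only [h3, h4, map_one, map_zero, zero_mul, add_zero]
        map_zero' := by
          obtain ⟨h3, h4⟩ := hval 0 0 0 (by simp)
          simp only [h3, h4, map_zero, zero_mul, add_zero]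
        map_add' := by
          intro a b
          obtain ⟨h3, h4⟩ := hval (a + b) (X a + X b) (Y a + Y b) (by
            push_cast; rw [hXY a, hXY b]; ring)
          simp only [h3, h4, map_add]; ring
        map_mul' := by
          intro a b
          obtain ⟨h3, h4⟩ := hval (a * b) (X a * X b + Y a * Y b * g) (X a * Y b + Y a * X b) (by
            push_cast
            rw [hXY a, hXY b]; ring)
          have hg' : π g = γ ^ 2 := hg
          simp only [h3, h4, map_add, map_mul, hg']; ring }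
    have hθ : ∀ (a : C) (x y : O), (a : K) = x + y * u → θ a = π x + π y * γ := by
      intro a x y h
      obtain ⟨h3, h4⟩ := hval a x y h
      change π (X a) + π (Y a) * γ = _
      rw [h3, h4]
    have hCL : ∀ a ∈ C, a ∈ quadField L u (hP.le _ hu2) := by
      rintro a ⟨x, hx, y, hy, rfl⟩
      exact ⟨x, hP.le _ hx, y, hP.le _ hy, rfl⟩
    have hOC : ∀ a ∈ O, a ∈ C := fun a ha => ⟨a, ha, 0, zero_mem _, by ring⟩
    obtain ⟨O', π', hle, hPl, hext⟩ := exists_place_of (quadField L u (hP.le _ hu2)) C θ hCL (by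
      -- the valuation property
      rintro a ⟨x, hx, y, hy, rfl⟩
      by_cases h0 : x = 0 ∧ y = 0
      · refine ⟨0, 1, ?_, Or.inr (by rw [map_one]; exact one_ne_zero)⟩
        rw [h0.1, h0.2]; simp
      -- scaling
      obtain ⟨c, hcL, hc0, hcO, hc1⟩ := hP.scale (Finset.univ : Finset (Fin 2)) ![x, y]
        (by intro i _; fin_cases i
            · exact hx
            · exact hy)
        (by
          by_cases hx0 : x = 0
          · exact ⟨1, Finset.mem_univ _, fun h => h0 ⟨hx0, h⟩⟩
          · exact ⟨0, Finset.mem_univ _, hx0⟩)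
      have hx' : c * x ∈ O := hcO 0 (Finset.mem_univ _)
      have hy' : c * y ∈ O := hcO 1 (Finset.mem_univ _)
      let x' : O := ⟨c * x, hx'⟩
      let y' : O := ⟨c * y, hy'⟩
      have hprim : π x' ≠ 0 ∨ π y' ≠ 0 := by
        obtain ⟨i, -, hi⟩ := hc1
        fin_cases i
        · left
          have : x' = 1 := Subtype.ext hi
          rw [this, map_one]; exact one_ne_zero
        · right
          have : y' = 1 := Subtype.ext hi
          rw [this, map_one]; exact one_ne_zero
      let p : C := ⟨c * x + c * y * u, c * x, hx', c * y, hy', rfl⟩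
      let p' : C := ⟨c * x + -(c * y) * u, c * x, hx', -(c * y), neg_mem hy', rfl⟩
      have hθp : θ p = π x' + π y' * γ := hθ p x' y' rfl
      have hθp' : θ p' = π x' - π y' * γ := by
        rw [hθ p' x' (-y') (by push_cast; rfl), map_neg]; ring
      by_cases hp : θ p = 0
      · -- then `θ p' ≠ 0`
        have hp' : θ p' ≠ 0 := by
          intro h3
          rw [hθp] at hp
          rw [hθp'] at h3
          have h4 : 2 * π x' = 0 := by linear_combination hp + h3
          have h5 : π x' = 0 := (mul_eq_zero.1 h4).resolve_left h2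
          have h6 : 2 * (π y' * γ) = 0 := by linear_combination hp - h3
          have h7 : π y' = 0 := by
            rcases mul_eq_zero.1 h6 with h8 | h8
            · exact absurd h8 h2
            · exact (mul_eq_zero.1 h8).resolve_right hγ
          rcases hprim with h8 | h8
          · exact h8 h5
          · exact h8 h7
        -- the norm
        have hNO : (c * x) ^ 2 - (c * y) ^ 2 * u ^ 2 ∈ O :=
          sub_mem (pow_mem hx' 2) (mul_mem (pow_mem hy' 2) hu2)
        have hN : ((p : K)) * p' = (c * x) ^ 2 - (c * y) ^ 2 * u ^ 2 := by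
          change (c * x + c * y * u) * (c * x + -(c * y) * u) = _
          ring
        set N := (c * x) ^ 2 - (c * y) ^ 2 * u ^ 2 with hNdef
        have hNL : N ∈ L := hP.le _ hNO
        have hp'0 : (p' : K) ≠ 0 := q_ne_zero C hp'
        have hap : (x + y * u) * c = p := by
          change (x + y * u) * c = c * x + c * y * u
          ring
        rcases hP.val (N * c⁻¹) (mul_mem hNL (inv_mem hcL)) with h3 | h3
        · refine ⟨⟨N * c⁻¹, hOC _ h3⟩, p', ?_, Or.inr hp'⟩
          change (x + y * u) * (p' : K) = N * c⁻¹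
          rw [← hN, ← hap]
          field_simp
        · by_cases hN0 : N = 0
          · have hpz : (p : K) = 0 := by
              rw [hN0] at hN
              exact (mul_eq_zero.1 hN).resolve_right hp'0
            refine ⟨0, 1, ?_, Or.inr (by rw [map_one]; exact one_ne_zero)⟩
            have : (x + y * u) = 0 := by
              rw [hpz] at hap
              exact (mul_eq_zero.1 hap).resolve_right hc0
            rw [this]; simp
          · refine ⟨1, ⟨(N * c⁻¹)⁻¹, hOC _ h3⟩ * p', ?_, Or.inl (by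
              rw [map_one]; exact one_ne_zero)⟩
            push_cast
            change (x + y * u) * ((N * c⁻¹)⁻¹ * (p' : K)) = 1
            have h5 : (x + y * u) * c * p' = N := by rw [hap, hN]
            field_simp
            linear_combination h5
      · have hap : (x + y * u) * c = p := by
          change (x + y * u) * c = c * x + c * y * u
          ring
        rcases hP.val c hcL with h3 | h3
        · exact ⟨p, ⟨c, hOC _ h3⟩, hap, Or.inl hp⟩
        · refine ⟨⟨c⁻¹, hOC _ h3⟩ * p, 1, ?_, Or.inr (by rw [map_one]; exact one_ne_zero)⟩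
          push_cast
          change (x + y * u) * 1 = c⁻¹ * (p : K)
          rw [← hap]
          field_simp)
    refine ⟨O', π', fun a ha => hle (hOC a ha), hPl, ?_⟩
    intro a
    have := hext ⟨a, hOC a a.2⟩
    rw [this]
    rw [hθ ⟨a, hOC a a.2⟩ a 0 (by push_cast; ring)]
    simp

/-- FINITELY MANY STEPS. -/
theorem exists_place_list (h2 : (2 : κ) ≠ 0) (l : List K) :
    ∀ (L : Subfield K) (O : Subring K) (π : O →+* κ), IsPlace L O π →
      (∀ u ∈ l, ∃ (hu2 : u ^ 2 ∈ O) (γ : κ), γ ≠ 0 ∧ π ⟨u ^ 2, hu2⟩ = γ ^ 2) →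
      ∃ (L' : Subfield K) (O' : Subring K) (π' : O' →+* κ) (h : O ≤ O'),
        L ≤ L' ∧ (∀ u ∈ l, u ∈ L') ∧ IsPlace L' O' π' ∧ (∀ a : O, π' ⟨a, h a.2⟩ = π a) := by
  induction l with
  | nil =>
    intro L O π hP _
    exact ⟨L, O, π, le_rfl, le_rfl, by simp, hP, fun a => rfl⟩
  | cons u l ih =>
    intro L O π hP hl
    obtain ⟨hu2, γ, hγ, hg⟩ := hl u (by simp)
    obtain ⟨O1, π1, h1, hP1, he1⟩ := exists_place_quad hP h2 hu2 hγ hg
    obtain ⟨L', O', π', h', hL', hmem, hP', he'⟩ := ih _ O1 π1 hP1 (by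
      intro v hv
      obtain ⟨hv2, δ, hδ, hg'⟩ := hl v (List.mem_cons_of_mem _ hv)
      exact ⟨h1 hv2, δ, hδ, by rw [he1 ⟨v ^ 2, hv2⟩]; exact hg'⟩)
    refine ⟨L', O', π', h1.trans h', (le_quadField L _).trans hL', ?_, hP', ?_⟩
    · intro v hv
      rcases List.mem_cons.1 hv with rfl | hv
      · exact hL' (self_mem_quadField L _)
      · exact hmem v hv
    · intro a
      rw [← he1 a, ← he' ⟨a, h1 a.2⟩]

/-- If `K` is generated over `L` by square roots of units with square residue, the place extends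
to `K`. -/
theorem exists_place_top (h2 : (2 : κ) ≠ 0) {L : Subfield K} {O : Subring K} {π : O →+* κ}
    (hP : IsPlace L O π) (S : Set K) (hS : S.Finite)
    (hu : ∀ u ∈ S, ∃ (hu2 : u ^ 2 ∈ O) (γ : κ), γ ≠ 0 ∧ π ⟨u ^ 2, hu2⟩ = γ ^ 2)
    (hgen : ∀ L' : Subfield K, L ≤ L' → (∀ u ∈ S, u ∈ L') → L' = ⊤) :
    ∃ (O' : Subring K) (π' : O' →+* κ) (h : O ≤ O'),
      IsPlace ⊤ O' π' ∧ (∀ a : O, π' ⟨a, h a.2⟩ = π a) := by
  obtain ⟨L', O', π', h, hL', hmem, hP', he'⟩ := exists_place_list h2 hS.toFinset.toList L O π hP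
    (by intro u hu'; exact hu u (by simpa using hu'))
  have : L' = ⊤ := hgen L' hL' (fun u hu' => hmem u (by simpa using hu'))
  subst this
  exact ⟨O', π', h, hP', he'⟩

end Step

end Pool.Agent.Lib.MP_43d240_ag.H44
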