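import Pool.Agent.Lib.MP_43d240_ag.Frozen.Defs
import Pool.Agent.Lib.MP_43d240_ag.H44.Gauss
import Pool.Agent.Lib.MP_43d240_ag.H44.QStep

/-!
# Project PI, frozen side (helper44): specialisation (F4)
-/

set_option autoImplicit false
set_option linter.unusedSimpArgs false

namespace Pool.Agent.Lib.MP_43d240_ag.H44

open MvPolynomial Pool.Agent.PI

section target

variable (κ : Type) [Field κ]

/-- the residue map on polynomials: `X 0, X 1, X 2` go to `x, y, z` -/
noncomputable def th : MvPolynomial (Fin 3) κ →+* KK κ :=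
  ((algebraMap (Polynomial (MvPolynomial (Fin 2) κ)) (KK κ)).comp
    (finSuccEquiv κ 2).toRingEquiv.toRingHom).comp
    (rename (![1, 2, 0] : Fin 3 → Fin 3) : MvPolynomial (Fin 3) κ →ₐ[κ] _).toRingHom

theorem th_injective : Function.Injective (th κ) := by
  unfold th
  intro a b h
  have h1 := IsFractionRing.injective (Polynomial (MvPolynomial (Fin 2) κ)) (KK κ) h
  have h2 := (finSuccEquiv κ 2).injective h1
  refine rename_injective _ ?_ h2
  decide

theorem th_X0 : th κ (X 0) = xx κ := by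
  change algebraMap _ (KK κ) (finSuccEquiv κ 2 (rename _ (X 0))) = _
  rw [rename_X]
  change algebraMap _ (KK κ) (finSuccEquiv κ 2 (X (Fin.succ 0))) = _
  rw [finSuccEquiv_X_succ]; rfl

theorem th_X1 : th κ (X 1) = yy κ := by
  change algebraMap _ (KK κ) (finSuccEquiv κ 2 (rename _ (X 1))) = _
  rw [rename_X]
  change algebraMap _ (KK κ) (finSuccEquiv κ 2 (X (Fin.succ 1))) = _
  rw [finSuccEquiv_X_succ]; rfl

theorem th_X2 : th κ (X 2) = zz κ := by
  change algebraMap _ (KK κ) (finSuccEquiv κ 2 (rename _ (X 2))) = _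
  rw [rename_X]
  change algebraMap _ (KK κ) (finSuccEquiv κ 2 (X 0)) = _
  rw [finSuccEquiv_X_zero]; rfl

theorem bb_eq : bb κ = 4 * yy κ ^ 5 * (xx κ - 2 * yy κ) - 4 * yy κ ^ 3 * (xx κ - 2 * yy κ) ^ 3
    + yy κ ^ 4 + 30 * yy κ ^ 2 * (xx κ - 2 * yy κ) ^ 2 - 27 * (xx κ - 2 * yy κ) ^ 4
    + 24 * yy κ * (xx κ - 2 * yy κ) + 4 := by
  unfold bb xx yy bpoly
  simp only [map_add, map_sub, map_mul, map_pow, map_ofNat]

/-- the six target values -/
noncomputable def tv : Fin 6 → KK κ := ![zz κ, bb κ, xx κ + zz κ, zz κ - 1, yy κ, zz κ - 2]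

theorem th_deh (j : Fin 6) : th κ (deh (map (Int.castRingHom κ) (sZ j))) = tv κ j := by
  have e0 : (deh (R := κ) (X 0)) = 1 := by unfold deh; rw [aeval_X]; rfl
  have e1 : (deh (R := κ) (X 1)) = X 0 := by unfold deh; rw [aeval_X]; rfl
  have e2 : (deh (R := κ) (X 2)) = X 1 := by unfold deh; rw [aeval_X]; rfl
  have e3 : (deh (R := κ) (X 3)) = X 2 := by unfold deh; rw [aeval_X]; rfl
  fin_cases j
  · change th κ (deh (map (Int.castRingHom κ) (X 3 * X 0 ^ 5))) = zz κ
    simp only [map_mul, map_pow, map_X, e0, e3, one_pow, mul_one, th_X2, map_one]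
  · change th κ (deh (map (Int.castRingHom κ) (4 * X 2 ^ 5 * (X 1 - 2 * X 2)
      - 4 * X 2 ^ 3 * (X 1 - 2 * X 2) ^ 3 + X 2 ^ 4 * X 0 ^ 2
      + 30 * X 2 ^ 2 * (X 1 - 2 * X 2) ^ 2 * X 0 ^ 2 - 27 * (X 1 - 2 * X 2) ^ 4 * X 0 ^ 2
      + 24 * X 2 * (X 1 - 2 * X 2) * X 0 ^ 4 + 4 * X 0 ^ 6))) = bb κ
    rw [bb_eq]
    simp only [map_mul, map_pow, map_X, map_add, map_sub, map_ofNat, e0, e1, e2, one_pow, mul_one,
      th_X0, th_X1, map_one]
  · change th κ (deh (map (Int.castRingHom κ) ((X 1 + X 3) * X 0 ^ 5))) = xx κ + zz κ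
    simp only [map_mul, map_pow, map_X, map_add, e0, e1, e3, one_pow, mul_one, th_X0, th_X2,
      map_one]
  · change th κ (deh (map (Int.castRingHom κ) ((X 3 - X 0) * X 0 ^ 5))) = zz κ - 1
    simp only [map_mul, map_pow, map_X, map_sub, e0, e3, one_pow, mul_one, th_X2, map_one]
  · change th κ (deh (map (Int.castRingHom κ) (X 2 * X 0 ^ 5))) = yy κ
    simp only [map_mul, map_pow, map_X, e0, e2, one_pow, mul_one, th_X1, map_one]
  · change th κ (deh (map (Int.castRingHom κ) ((X 3 - 2 * X 0) * X 0 ^ 5))) = zz κ - 2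
    simp only [map_mul, map_pow, map_X, map_sub, map_ofNat, e0, e3, one_pow, mul_one, th_X2,
      map_one]

/-- the polynomials in three variables which map to the target values -/
theorem tv_ne_zero [CharZero κ] (j : Fin 6) : tv κ j ≠ 0 := by
  rw [← th_deh]
  have key : deh (map (Int.castRingHom κ) (sZ j)) ≠ 0 := by
    intro h0
    -- evaluate at suitable integral points
    have e0 : (deh (R := κ) (X 0)) = 1 := by unfold deh; rw [aeval_X]; rfl
    have e1 : (deh (R := κ) (X 1)) = X 0 := by unfold deh; rw [aeval_X]; rfl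
    have e2 : (deh (R := κ) (X 2)) = X 1 := by unfold deh; rw [aeval_X]; rfl
    have e3 : (deh (R := κ) (X 3)) = X 2 := by unfold deh; rw [aeval_X]; rfl
    have h1 := congrArg (eval (![1, 1, 3] : Fin 3 → κ)) h0
    have h2 := congrArg (eval (![0, 0, 0] : Fin 3 → κ)) h0
    have v0 : (![1, 1, 3] : Fin 3 → κ) 0 = 1 := rfl
    have v1 : (![1, 1, 3] : Fin 3 → κ) 1 = 1 := rfl
    have v2 : (![1, 1, 3] : Fin 3 → κ) 2 = 3 := rfl
    rw [map_zero] at h1 h2
    revert h1 h2
    fin_cases j
    · change eval _ (deh (map (Int.castRingHom κ) (X 3 * X 0 ^ 5))) = 0 → _ → False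
      simp only [map_mul, map_pow, map_X, e0, e3, one_pow, mul_one, eval_X, map_one]
      intro h1 _
      first
        | rw [v2] at h1; norm_num at h1
        | rw [v0, v2] at h1; norm_num at h1
        | rw [v1] at h1; norm_num at h1
    · change _ → eval _ (deh (map (Int.castRingHom κ) (4 * X 2 ^ 5 * (X 1 - 2 * X 2)
        - 4 * X 2 ^ 3 * (X 1 - 2 * X 2) ^ 3 + X 2 ^ 4 * X 0 ^ 2
        + 30 * X 2 ^ 2 * (X 1 - 2 * X 2) ^ 2 * X 0 ^ 2 - 27 * (X 1 - 2 * X 2) ^ 4 * X 0 ^ 2
        + 24 * X 2 * (X 1 - 2 * X 2) * X 0 ^ 4 + 4 * X 0 ^ 6))) = 0 → False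
      simp only [map_mul, map_pow, map_X, map_add, map_sub, map_ofNat, e0, e1, e2, one_pow,
        mul_one, eval_X, map_one]
      intro _ h2
      norm_num at h2
    · change eval _ (deh (map (Int.castRingHom κ) ((X 1 + X 3) * X 0 ^ 5))) = 0 → _ → False
      simp only [map_mul, map_pow, map_X, map_add, e0, e1, e3, one_pow, mul_one, eval_X, map_one]
      intro h1 _
      first
        | rw [v2] at h1; norm_num at h1
        | rw [v0, v2] at h1; norm_num at h1
        | rw [v1] at h1; norm_num at h1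
    · change eval _ (deh (map (Int.castRingHom κ) ((X 3 - X 0) * X 0 ^ 5))) = 0 → _ → False
      simp only [map_mul, map_pow, map_X, map_sub, e0, e3, one_pow, mul_one, eval_X, map_one]
      intro h1 _
      first
        | rw [v2] at h1; norm_num at h1
        | rw [v0, v2] at h1; norm_num at h1
        | rw [v1] at h1; norm_num at h1
    · change eval _ (deh (map (Int.castRingHom κ) (X 2 * X 0 ^ 5))) = 0 → _ → False
      simp only [map_mul, map_pow, map_X, e0, e2, one_pow, mul_one, eval_X, map_one]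
      intro h1 _
      first
        | rw [v2] at h1; norm_num at h1
        | rw [v0, v2] at h1; norm_num at h1
        | rw [v1] at h1; norm_num at h1
    · change eval _ (deh (map (Int.castRingHom κ) ((X 3 - 2 * X 0) * X 0 ^ 5))) = 0 → _ → False
      simp only [map_mul, map_pow, map_X, map_sub, map_ofNat, e0, e3, one_pow, mul_one, eval_X,
        map_one]
      intro h1 _
      first
        | rw [v2] at h1; norm_num at h1
        | rw [v0, v2] at h1; norm_num at h1
        | rw [v1] at h1; norm_num at h1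
  intro h
  exact key (th_injective κ (by rw [h, map_zero]))

end target

/-- E3 (helper30): transfer of the absence of zero divisors along a place. -/
def NzdTransfer : Prop :=
  ∀ (K κ' : Type) [Field K] [Field κ'] (O : Subring K) (π : O →+* κ'), IsPlace ⊤ O π →
    ∀ (α β : Fin 3 → O), NoZD (Q3 κ' (fun j => π (α j)) (fun j => π (β j))) →
      NoZD (Q3 K (fun j => (α j : K)) (fun j => (β j : K)))

theorem deh_map {R S : Type} [CommRing R] [CommRing S] (φ : R →+* S)
    (F : MvPolynomial (Fin 4) R) : deh (map φ F) = map φ (deh F) := by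
  unfold deh
  induction F using MvPolynomial.induction_on with
  | C a => simp [aeval_C, algebraMap_eq]
  | add p q hp hq => rw [map_add, map_add, hp, hq, map_add, map_add]
  | mul_X p i hp =>
    rw [map_mul, map_mul, hp, map_mul, map_mul, map_X, aeval_X, aeval_X]
    congr 1
    fin_cases i <;> simp

theorem slot_a (κ : Type) [Field κ] (j : Fin 3) : tv κ (![0, 2, 4] j) = aS κ j := by
  fin_cases j <;> rfl

theorem slot_b (κ : Type) [Field κ] (j : Fin 3) : tv κ (![1, 3, 5] j) = bS κ j := by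
  fin_cases j <;> rfl

theorem nozd_congr {K : Type} [Field K] {a a' b b' : Fin 3 → K} (ha : a = a') (hb : b = b')
    (h : NoZD (Q3 K a b)) : NoZD (Q3 K a' b') := by
  subst ha; subst hb; exact h

/-- SPECIALISATION: the three quaternion algebras over the function field of the cover have no
zero divisors. -/
theorem spec (hE3 : NzdTransfer) (hField : FieldStatement) {k : Type} [Field k]
    (V : ValuationSubring k) [IsAlgClosed (IsLocalRing.ResidueField V)]
    [CharZero (IsLocalRing.ResidueField V)] (F : Idx → MvPolynomial (Fin 4) V)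
    (hF : ∀ i : Idx, map (IsLocalRing.residue V) (F i) = map (Int.castRingHom _) (sZ i.1))
    {K : Type} [Field K] (ψ : MvPolynomial (Fin 3) k →+* K) (hψ : Function.Injective ψ)
    (r : Idx → K)
    (hr : ∀ j l, r (j, l) ^ 2 * ψ (deh (map V.subtype (F (j, 0)))) =
      ψ (deh (map V.subtype (F (j, l)))))
    (hgen : ∀ L : Subfield K, (∀ a, ψ a ∈ L) → (∀ i, r i ∈ L) → L = ⊤) :
    NoZD (Q3 K (fun j => ψ (deh (map V.subtype (F (![0, 2, 4] j, 0)))))
      (fun j => ψ (deh (map V.subtype (F (![1, 3, 5] j, 0)))))) := by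
  set κ := IsLocalRing.ResidueField V with hκ
  obtain ⟨O, π, hP, hval⟩ := exists_place_gauss V ψ hψ (th κ) (th_injective κ)
  -- values of the forms
  have hv : ∀ i : Idx, ∃ h : ψ (deh (map V.subtype (F i))) ∈ O, π ⟨_, h⟩ = tv κ i.1 := by
    intro i
    obtain ⟨h, h1⟩ := hval (deh (F i))
    have h' : ψ (deh (map V.subtype (F i))) ∈ O := by rw [deh_map]; exact h
    have h3 : (⟨_, h'⟩ : O) = ⟨_, h⟩ := Subtype.ext (by
      change ψ (deh (map V.subtype (F i))) = ψ (map V.subtype (deh (F i)))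
      rw [deh_map])
    refine ⟨h', ?_⟩
    rw [h3, h1, ← th_deh, ← hF i, deh_map]
  have h2 : (2 : KK κ) ≠ 0 := by
    have h3 : ((2 : MvPolynomial (Fin 3) κ)) ≠ 0 := two_ne_zero
    intro h4
    apply h3
    apply th_injective κ
    rw [map_zero, map_ofNat]; exact h4
  obtain ⟨O', π', hle, hP', hext⟩ := exists_place_top h2 hP (Set.range r) (Set.finite_range r)
    (by
      rintro u ⟨⟨j, l⟩, rfl⟩
      obtain ⟨m0, e0⟩ := hv (j, 0)
      obtain ⟨m1, e1⟩ := hv (j, l)
      have hne : π ⟨_, m0⟩ ≠ 0 := by rw [e0]; exact tv_ne_zero κ j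
      have hinv := hP.unit _ hne
      have h0 : ψ (deh (map V.subtype (F (j, 0)))) ≠ 0 := IsPlace.ne_zero_of_map ⟨_, m0⟩ hne
      have hsq : r (j, l) ^ 2 = ψ (deh (map V.subtype (F (j, l)))) *
          (ψ (deh (map V.subtype (F (j, 0)))))⁻¹ := by
        rw [← hr j l]
        field_simp
      have hmem : r (j, l) ^ 2 ∈ O := by
        rw [hsq]
        exact mul_mem m1 hinv
      refine ⟨hmem, 1, one_ne_zero, ?_⟩
      have h5 : (⟨r (j, l) ^ 2, hmem⟩ : O) * ⟨_, m0⟩ = ⟨_, m1⟩ := Subtype.ext (hr j l)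
      have h6 := congrArg π h5
      rw [map_mul, e0, e1] at h6
      have h7 := tv_ne_zero κ j
      rw [one_pow]
      exact mul_right_cancel₀ h7 (by rw [h6, one_mul]))
    (by
      intro L' hL hmem
      exact hgen L' (fun a => hL (Subfield.subset_closure ⟨a, rfl⟩)) (fun i => hmem _ ⟨i, rfl⟩))
  let α : Fin 3 → O' := fun j => ⟨_, hle (hv (![0, 2, 4] j, 0)).1⟩
  let β : Fin 3 → O' := fun j => ⟨_, hle (hv (![1, 3, 5] j, 0)).1⟩
  have hα : (fun j => π' (α j)) = aS κ := by
    funext j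
    rw [← slot_a κ j, ← (hv (![0, 2, 4] j, 0)).2]
    exact hext ⟨_, (hv (![0, 2, 4] j, 0)).1⟩
  have hβ : (fun j => π' (β j)) = bS κ := by
    funext j
    rw [← slot_b κ j, ← (hv (![1, 3, 5] j, 0)).2]
    exact hext ⟨_, (hv (![1, 3, 5] j, 0)).1⟩
  exact hE3 K (KK κ) O' π' hP' α β (nozd_congr hα.symm hβ.symm (hField κ))

/-- THE ASSEMBLY. -/
theorem frozen_of (hE3 : NzdTransfer) (hGen : GenStatement) (hGeo : GeoStatement)
    (hField : FieldStatement) (hEnd : EndStatement) : FrozenStatement := by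
  obtain ⟨k, hk, hac, hc0, V, hVac, hV0, F, hhom, hGP, hF⟩ := hGen
  obtain ⟨X, hX, p, hmodel, ψ, r, hψ, hr, hgen, hsq⟩ := hGeo k
    (fun i => map V.subtype (F i)) (fun i => (hhom i).map V.subtype) hGP
  have hnz := spec hE3 hField V F hF ψ hψ r hr hgen
  have hne : ∀ i : Idx, ψ (deh (map V.subtype (F i))) ≠ 0 := by
    intro i h0
    have h1 : deh (map V.subtype (F i)) = 0 := hψ (by rw [h0, map_zero])
    rw [deh_map] at h1
    have h2 : deh (F i) = 0 := map_injective _ Subtype.val_injective (by rw [h1, map_zero])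
    have h3 := tv_ne_zero (IsLocalRing.ResidueField V) i.1
    apply h3
    rw [← th_deh, ← hF i, deh_map, h2, map_zero, map_zero]
  exact hEnd k X p hmodel _ _ (fun j => hne _) (fun j => hne _) (fun j => hsq _)
    (fun j => hsq _) hnz

end Pool.Agent.Lib.MP_43d240_ag.H44
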